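import Pool.Agent.Y218.HWMain

/-!
# MP_2ca583_ag: how many branch points have to be moved to reach an ordinary hyperelliptic curve

Let `k` be algebraically closed of characteristic `p > 2`. A hyperelliptic curve of genus `g ≥ 1` over
`k` has `2 g + 2` branch points. Suppose that `r ≤ 2 g + 1` of them may be moved and that the other
`2 g + 2 - r` are fixed; after a projective transformation one of the fixed points is `∞`, and the
others are the elements of a set `Λ ⊂ k` with `2 g + 1 - r` elements. For `μ = (μ_1, …, μ_r)` with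
distinct `μ_i ∉ Λ` the curve is `y² = ∏ (x - μ_i) ∏_{l ∈ Λ} (x - l)`.

**Theorem.**
1. By moving `r` branch points one can reach an ordinary curve from every hyperelliptic curve of
   genus `g` if and only if `2 g ≤ r (p + 1)`. So `⌈2 g / (p + 1)⌉` branch points are enough for all
   curves of genus `g`, and one less is not enough.
2. For all `g`, `r` and `Λ` there are `μ_i` such that the Hasse-Witt matrix has rank at least
   `min (g, r (p + 1) / 2)`, that is, the `a`-number of the curve is at most
   `max (0, g - r (p + 1) / 2)`.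
3. If `2 g > r (p + 1)` there is `Λ` such that for all positions of the `r` points the Hasse-Witt
   matrix is singular and the `p`-torsion subgroup of the Jacobian (the Picard group of the affine
   curve, which has one point at infinity) has at most `p ^ (g - 1)` elements.

The case `r = 1` is the question: one branch point suffices if and only if `2 g ≤ p + 1` (starting
files `HasseWittClassification` and `Disproof`).

Proof of 2: over the field of rational functions in `μ_1, …, μ_r` let `U` of degree less than `g` be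
in the kernel of the Hasse-Witt matrix, so no monomial `x ^ (p j - 1)` occurs in `U f ^ ((p - 1) / 2)`.
The lemma `pointwise` of the starting file (a sum of residues) and the derivations `∂ / ∂ μ_i` show that
`(x - μ_i) ^ ((p + 1) / 2)` divides `U` for each `i`; hence `U = 0` or `deg U ≥ r (p + 1) / 2`.
-/

set_option autoImplicit false

open Polynomial

namespace Pool.Agent.Results.MP_2ca583_ag.MovingSeveralPoints

/-- The Hasse-Witt (Cartier-Manin) matrix of `y² = f(x)`: the entry with indices `i, j` (from `0`)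
is the coefficient of `x ^ (p (i + 1) - (j + 1))` in `f ^ ((p - 1) / 2)`, written as the coefficient of
`x ^ (p (i + 1))` in `x ^ (j + 1) f ^ ((p - 1) / 2)`. For `f` squarefree of degree `2 g + 1` the curve is
ordinary if and only if this matrix is invertible, and its `a`-number is `g` minus the rank. -/
noncomputable def hasseWitt {k : Type*} [Field k] (p g : ℕ) (f : k[X]) : Matrix (Fin g) (Fin g) k :=
  Matrix.of fun i j => (X ^ ((j : ℕ) + 1) * f ^ ((p - 1) / 2)).coeff (p * ((i : ℕ) + 1))

/-- The affine coordinate ring `k[x, y] / (y² - f(x))`. -/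
abbrev CoordRing {k : Type*} [Field k] (f : k[X]) : Type _ :=
  AdjoinRoot (X ^ 2 - C f : k[X][X])

/-- The `p`-torsion subgroup of the Picard group of `k[x, y] / (y² - f)` has exactly `p ^ s` elements.
For `f` squarefree of odd degree the smooth projective model has exactly one point at infinity, so this
Picard group is the group of points of the Jacobian, and `s` is the `p`-rank. -/
def HasPRank {k : Type*} [Field k] (p : ℕ) (f : k[X]) (s : ℕ) : Prop :=
  Nat.card {c : CommRing.Pic (CoordRing f) // c ^ p = 1} = p ^ s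

/-- the polynomial with the roots `μ i` and the elements of `Λ` -/
noncomputable def poly {k : Type*} [Field k] {r : ℕ} (μ : Fin r → k) (Λ : Finset k) : k[X] :=
  (∏ i, (X - C (μ i))) * ∏ l ∈ Λ, (X - C l)

/-- the moved branch points are distinct and different from the fixed ones -/
def Admissible {k : Type*} {r : ℕ} (μ : Fin r → k) (Λ : Finset k) : Prop :=
  Function.Injective μ ∧ ∀ i, μ i ∉ Λ

theorem result (k : Type*) [Field k] [IsAlgClosed k] (p : ℕ) [Fact p.Prime] [CharP k p] (hp : 2 < p)
    (g r : ℕ) (hg : 1 ≤ g) (hr : r ≤ 2 * g + 1) :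
    ((∀ Λ : Finset k, Λ.card = 2 * g + 1 - r →
        ∃ μ : Fin r → k, Admissible μ Λ ∧ (hasseWitt p g (poly μ Λ)).det ≠ 0) ↔
      2 * g ≤ r * (p + 1)) ∧
    (∀ Λ : Finset k, Λ.card = 2 * g + 1 - r →
      ∃ μ : Fin r → k, Admissible μ Λ ∧
        min g (r * ((p + 1) / 2)) ≤ (hasseWitt p g (poly μ Λ)).rank) ∧
    (r * (p + 1) < 2 * g → ∃ Λ : Finset k, Λ.card = 2 * g + 1 - r ∧
      ∀ μ : Fin r → k, Admissible μ Λ →
        (hasseWitt p g (poly μ Λ)).det = 0 ∧ ∃ s < g, HasPRank p (poly μ Λ) s) := by
  have hc : ∀ Λ : Finset k, Λ.card = 2 * g + 1 - r ↔ Λ.card + r = 2 * g + 1 := fun Λ => by omega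
  refine ⟨⟨fun h => ?_, fun h Λ hΛ => ?_⟩, fun Λ hΛ => ?_, fun h => ?_⟩
  · refine (Pool.Agent.Y218.HW.classification_r (k := k) p hp g r hg).1 fun Λ hΛ => ?_
    obtain ⟨μ, ⟨h1, h2⟩, h3⟩ := h Λ ((hc Λ).2 hΛ)
    exact ⟨μ, h1, h2, h3⟩
  · obtain ⟨μ, h1, h2, h3⟩ := Pool.Agent.Y218.HW.exists_ordinary p hp g r hg Λ ((hc Λ).1 hΛ) h
    exact ⟨μ, ⟨h1, h2⟩, h3⟩
  · obtain ⟨μ, h1, h2, h3⟩ := Pool.Agent.Y218.HW.exists_rank p hp g r hg Λ ((hc Λ).1 hΛ)
    exact ⟨μ, ⟨h1, h2⟩, h3⟩
  · obtain ⟨Λ, hΛ, h1⟩ := Pool.Agent.Y218.HW.exists_bad (k := k) p hp g r h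
    exact ⟨Λ, (hc Λ).2 hΛ, fun μ hμ => ⟨(h1 μ).1, (h1 μ).2 hμ.1 hμ.2⟩⟩

end Pool.Agent.Results.MP_2ca583_ag.MovingSeveralPoints
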